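import Pool.Agent.H7.CP.Targets

/-!
# MP_e37c09_lc, module HPO: `Pg` is a definable positivity notion (an adaptation of
`Pool/Agent/H86/HDA/PO2.lean`)
-/

set_option autoImplicit false

open Ordinal Cardinal Order Set
open scoped ZFSet

universe u

namespace Pool.Agent.H72.CP.HPO

open _root_.HD

/-- `Pg` is a definable positivity notion -/
theorem X (hLD : T_HLD.{u}) (hUQ : T_HUQ.{u}) : T_HPO.{u} := by
  intro en hen t X0 H K T g ht hX0 hH hK hK0 hM
  have hcof : ℵ₀ < K.ord.cof := by rw [hK.cof_ord]; exact hK0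
  have hlt : ∀ b ∈ T, b < K.ord → t b (g b) < K.ord := fun b hb hbK =>
    ht.lt K hK.aleph0_le b hbK _ (hM.1.ln.lt b hb hbK).2.1
  refine ⟨?_, ?_, ?_, ?_⟩
  · intro X Y hX hXY
    exact Pos.mono hX fun b hb hbX _ => ⟨hbX.1, hXY _ (hlt b hbX.1 hb) hbX.2⟩
  · intro X hX
    have hC : Clb K.ord (univ : Set Ordinal.{u}) :=
      ⟨fun a ha => ⟨succ a, (Cardinal.isSuccLimit_ord hK.aleph0_le).succ_lt ha, lt_succ a, trivial⟩,
        fun _ _ _ _ => trivial⟩
    obtain ⟨b, hb, -, hbX, -⟩ := hX univ hC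
    exact ⟨_, hlt b hbX.1 hb, hbX.2⟩
  · intro τ hτ X hX hP
    refine All.va _ K.ord hcof τ hτ (fun i => {a | a ∈ T ∧ t a (g a) ∈ X i}) hX
      (Pos.mono hP fun b _ hbX _ => ?_)
    obtain ⟨h1, i, hi, h2⟩ := hbX
    exact ⟨i, hi, h1, h2⟩
  · intro Y hY
    have hY' : DO fun w : ℕ → Ordinal.{u} => Y (t (w 0) (w 1)) (fun n => w (n + 3)) := by
      refine (DO.ex (R := fun x w => x = t (w 0) (w 1) ∧ Y x (fun n => w (n + 3)))
        (DO.and ?_ ?_)).congr fun w => by simp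
      · exact DO.s3 (X := fun a b c => c = t a b) ht.dfn 1 2 0
      · exact (hY.ren fun n => if n = 0 then 0 else n + 3).congr fun w => by simp
    have h1 := hLD en hen t X0 H ht hX0 hH
      (fun a b w => Y (t a b) (fun n => w (n + 1))) hY' 0
    have h2 := DO.sub (R := fun x w => ∃ (T' : Set Ordinal.{u}) (g' : Ordinal.{u} → Ordinal.{u}),
      LMh en t X0 H x T' g' ∧ Pos om x {γ | γ ∈ T' ∧ Y (t γ (g' γ)) w}) K.ord h1
    refine h2.congr fun w => ⟨fun hP => ⟨T, g, hM, hP⟩, ?_⟩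
    rintro ⟨T', g', hM', hP⟩
    have hnull := hUQ en t X0 H K.ord T' g' T g hcof hM' hM
    refine Pos.mono (pos_diff All.va hcof hP hnull) fun b _ hb _ => ?_
    obtain ⟨⟨hbS, hbY⟩, hne⟩ := hb
    have h3 : b ∈ T ∧ g' b = g b := by
      by_contra hc
      apply hne
      refine ⟨hbS, ?_⟩
      by_cases hbT : b ∈ T
      · exact Or.inr fun h => hc ⟨hbT, h⟩
      · exact Or.inl hbT
    refine ⟨h3.1, ?_⟩
    change Y (t b (g b)) w
    rw [← h3.2]
    exact hbY

end Pool.Agent.H72.CP.HPO
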