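import Pool.Agent.H7.CP.Targets

/-!
# (HUQ) uniqueness of the minimal pair (MP_e37c09_lc)
-/

open Ordinal Cardinal Order Set
open scoped ZFSet

universe u

namespace Pool.Agent.H72.CP.HUQ

open _root_.HD

theorem X : T_HUQ.{u} := by
  intro en t X H ν T g T' g' hν h1 h2
  intro hp
  refine null_union All.va hν (h2.2 T g h1.1) (h1.2 T' g' h2.1)
    (hp.mono fun b _ hb _ => ?_)
  obtain ⟨hT, h3⟩ := hb
  by_cases hT' : b ∈ T'
  · have hne : g b ≠ g' b := h3.resolve_left (fun h => h hT')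
    rcases lt_or_gt_of_ne hne with h | h
    · exact Or.inl ⟨hT, Or.inr h⟩
    · exact Or.inr ⟨hT', Or.inr h⟩
  · exact Or.inl ⟨hT, Or.inl hT'⟩

end Pool.Agent.H72.CP.HUQ
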